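import Pool.Agent.H45.UZ.TarF

/-!
# MP_f6fd33_lc, module FR4: (b3) and (b4) for the free system
-/

open Ordinal Order Set
open scoped ZFSet

namespace SE.UZ

open SF

theorem pf_FR4 (hFRN : T_FRN) (hFR1 : T_FR1) (hFR3 : T_FR3) : T_FR4 := by
  intro D κ hA b hb b' hb'
  obtain ⟨⟨hl, -⟩, -, hOb, hu, hLe, hRi, -⟩ := hFRN D κ hA b hb b' hb'
  obtain ⟨-, -, h3, -⟩ := hFR1 D κ hA b hb
  have hKl : ∀ k, Kl b.l k → Kl b'.l k := by
    rintro k ⟨e, he, hk⟩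
    exact ⟨e, by rw [hl]; omega, hk⟩
  refine ⟨?_, ?_⟩
  · intro I F hAg Z hZ
    have hOf : ∀ v ∈ I, b.Of D (app F v) := fun v hv => (hOb _).1 (hAg.o v hv)
    have hAg' : b.Ag D I F := by
      refine ⟨hAg.n, hAg.h, fun v hv => (hOf v hv).1, fun v hv w hw => ?_⟩
      obtain ⟨C, hC1, hC2, hC3⟩ := hAg.a v hv w hw
      obtain ⟨hC, -, hC1⟩ := (hLe _ _).1 hC1
      obtain ⟨-, -, hC2⟩ := (hLe _ _).1 hC2
      rw [hu C hC, hu _ (hOf v hv), hu _ (hOf w hw)] at hC3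
      exact ⟨C, hC1, hC2, hC3⟩
    obtain ⟨B, hB, hR, hk⟩ := hFR3 D κ hA b hb I F hAg' hOf Z hZ
    refine ⟨B, (hOb B).2 hB, fun v hv => ?_, fun k hkB hkn => ?_⟩
    · obtain ⟨r1, r2, r3⟩ := hR v hv
      exact (hRi _ _).2 ⟨hOf v hv, hB, r1, r2, r3⟩
    · rw [hu B hB] at hkB
      rw [hl]
      refine hk k hkB (fun v hv => ?_)
      rw [← hu _ (hOf v hv)]
      exact hkn v hv
  · intro B hB Y hY hYn e he τ hτ u hu' Z hZ
    have hB' := (hOb B).1 hB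
    rw [hu B hB'] at hYn
    obtain ⟨B', i, hle, hi, hi', hiZ, hkd, htm, hvw, hlS, hev, hk⟩ :=
      hb.lb B hB'.1 Y hY hYn e (by omega) τ hτ u hu' Z hZ
    have hOf' : b.Of D B' := by
      refine h3 B B' i hB' hle hi hi' hlS (fun k hk1 hk2 hk3 => (hk k hk1 hk2 hk3).1) ?_
      intro h
      rw [hkd, nS_inj] at h
      exfalso
      have := hb.l3
      omega
    refine ⟨B', i, (hLe _ _).2 ⟨hB', hOf', hle⟩, ?_, ?_, hiZ, hkd, htm, hvw, ?_, ?_, ?_⟩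
    · rw [hu B' hOf']; exact hi
    · rw [hu B hB']; exact hi'
    · rw [hu B hB']; exact hlS
    · rw [hu B' hOf']; exact hev
    · rw [hu B' hOf', hu B hB']
      intro k hk1 hk2 hk3
      obtain ⟨a1, a2⟩ := hk k hk1 hk2 hk3
      exact ⟨hKl k a1, a2⟩

end SE.UZ
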