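import Pool.Agent.H45.UZ.TarA

/-!
# MP_f6fd33_lc, module QC2: amalgamation of a generic filter and a condition
-/

open Ordinal Order Set
open scoped ZFSet

namespace SE.UZ

open SF

theorem pf_QC2 (hBM : T_BM) (hBD : T_BD) (hBC : T_BC) (hBL : T_BL) : T_QC2 := by
  intro D hD ρ0 ρ ρ' ρ1 G p hρ hρ' hρ1 hc h1 h2 ht ht' h0 hG hp hr
  obtain ⟨-, -, -, bcPos, bcRst, bcRR, bcRS, -⟩ := hBC
  obtain ⟨-, bdMono, -⟩ := hBD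
  have hcρ : Cld D.L ρ := fun i hi => ⟨(hc i (h1 hi)).1, ht i hi⟩
  have hgs := (hBL D hD ρ G hρ hcρ hG).1
  have hdmG : ∀ q ∈ G, dm q ⊆ ρ := by
    intro q hq
    rw [← hgs] at hq
    exact (ZFSet.mem_sep.1 hq).2
  obtain ⟨hFF, hdm, -⟩ := (bcPos D.L ρ' p).1 hp
  have hrFF := (bcRst ρ0 p hFF).1
  have hdr : ∀ i, i ∈ dm (rst ρ0 p) ↔ i ∈ dm p ∧ i ∈ ρ0 := (bcRst ρ0 p hFF).2.1
  have hsub : dm (rst ρ0 p) ⊆ ρ ∩ ρ' := by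
    intro i hi
    exact ZFSet.mem_inter.2 ⟨hdmG _ hr hi, hdm ((hdr i).1 hi).1⟩
  have e1 : rst (ρ ∩ ρ') (rst ρ0 p) = rst ρ0 p := (bcRst (ρ ∩ ρ') _ hrFF).2.2.2 hsub
  have e2 : rst (ρ ∩ ρ') (rst ρ0 p) = rst (ρ ∩ ρ') p := bcRS _ _ _ h0
  have e3 : rst ρ' p = p := (bcRst ρ' p hFF).2.2.2 hdm
  have e4 : rst ρ p = rst ρ0 p := by
    rw [← e1, e2, ← bcRR, e3]
  have hp1 : p ∈ D.P ρ1 := bdMono D.L ρ' ρ1 p hp fun i hi => h2 (hdm hi)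
  obtain ⟨G1, hG1, hpG, hgs1⟩ := hBM D hD ρ ρ1 G p hρ hρ1 hc h1 ht hG hp1 (by rw [e4]; exact hr)
  exact ⟨G1, hG1, hgs1, hpG⟩

end SE.UZ
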